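import Pool.Agent.H37.CTT.Stmts

/-! Row SG3 of the board `ctt`. -/

set_option autoImplicit false

namespace Pool.CND

open Matrix

section sg3

variable {F : Type} [Field F]

lemma sg3_frm (x v : Fin 4 → F) :
    frm x v = x 0 * v 3 + x 1 * v 2 - x 2 * v 1 - x 3 * v 0 := by
  unfold frm J4s
  simp [Matrix.mulVec, dotProduct, Fin.sum_univ_four]
  ring

def sg3_m (s t r : F) : Matrix (Fin 4) (Fin 4) F :=
  !![1, 0, s, t; 0, 1, r, s; 0, 0, 1, 0; 0, 0, 0, 1]

lemma sg3_det (s t r : F) : (sg3_m s t r).det = 1 := by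
  unfold sg3_m
  simp [Matrix.det_succ_row_zero, Fin.sum_univ_succ]

def sg3_e (s t r : F) : SpecialLinearGroup (Fin 4) F := ⟨sg3_m s t r, sg3_det s t r⟩

lemma sg3_mem (s t r : F) : sg3_e s t r ∈ Sp4 F := by
  show (sg3_m s t r)ᵀ * J4s F * sg3_m s t r = J4s F
  unfold sg3_m J4s
  ext i j
  fin_cases i <;> fin_cases j <;> simp [Matrix.mul_apply, Fin.sum_univ_four]

lemma sg3_sieg (s t r : F) : Sieg (sg3_e s t r).1 := by
  constructor
  · intro i j hj
    rcases hj with rfl | rfl <;> fin_cases i <;> simp [sg3_e, sg3_m]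
  · intro i j hi
    rcases hi with rfl | rfl <;> fin_cases j <;> simp [sg3_e, sg3_m]

lemma sg3_act (s t r : F) (x : Fin 4 → F) : (sg3_e s t r).1.mulVec x =
    ![x 0 + x 2 * s + x 3 * t, x 1 + x 2 * r + x 3 * s, x 2, x 3] := by
  ext i
  fin_cases i <;> simp [sg3_e, sg3_m, Matrix.mulVec, dotProduct, Fin.sum_univ_four] <;> ring

lemma sg3_pres {g : SpecialLinearGroup (Fin 4) F} (hg : g ∈ Sp4 F) (x y : Fin 4 → F) :
    frm (g.1.mulVec x) (g.1.mulVec y) = frm x y := by
  have h : g.1ᵀ * J4s F * g.1 = J4s F := hg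
  unfold frm
  rw [Matrix.mulVec_mulVec, ← Matrix.vecMul_transpose, ← Matrix.dotProduct_mulVec,
    Matrix.mulVec_mulVec, ← Matrix.mul_assoc, h]

/-- the `v` all whose transvections are in `G₀` -/
def sg3_C (G₀ : Subgroup (SpecialLinearGroup (Fin 4) F)) : Set (Fin 4 → F) :=
  {v | ∀ c : F, ∃ g ∈ G₀, ∀ x, g.1.mulVec x = x + (c * frm x v) • v}

variable {G₀ : Subgroup (SpecialLinearGroup (Fin 4) F)}

lemma sg3_lam (hS : ∀ g ∈ Sp4 F, Sieg g.1 → g ∈ G₀) {v : Fin 4 → F} (h2 : v 2 = 0)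
    (h3 : v 3 = 0) : v ∈ sg3_C G₀ := by
  intro c
  refine ⟨sg3_e (-(c * v 0 * v 1)) (-(c * v 0 ^ 2)) (-(c * v 1 ^ 2)),
    hS _ (sg3_mem _ _ _) (sg3_sieg _ _ _), fun x => ?_⟩
  rw [sg3_act, sg3_frm]
  ext i
  fin_cases i <;> simp [h2, h3] <;> ring

lemma sg3_conj (hle : G₀ ≤ Sp4 F) {h : SpecialLinearGroup (Fin 4) F} (hh : h ∈ G₀)
    {v : Fin 4 → F} (hv : v ∈ sg3_C G₀) : h.1.mulVec v ∈ sg3_C G₀ := by
  intro c
  obtain ⟨g, hg, hx⟩ := hv c
  refine ⟨h * g * h⁻¹, mul_mem (mul_mem hh hg) (inv_mem hh), fun x => ?_⟩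
  have e0 : h.1.mulVec ((h⁻¹).1.mulVec x) = x := by
    rw [Matrix.mulVec_mulVec]
    have e2 : h.1 * (h⁻¹).1 = 1 := by
      show (h * h⁻¹).1 = 1
      rw [mul_inv_cancel]
      rfl
    rw [e2, Matrix.one_mulVec]
  have e1 : (h * g * h⁻¹).1.mulVec x = h.1.mulVec (g.1.mulVec ((h⁻¹).1.mulVec x)) := by
    rw [Matrix.mulVec_mulVec, Matrix.mulVec_mulVec]
    rfl
  have e3 : frm ((h⁻¹).1.mulVec x) v = frm x (h.1.mulVec v) := by
    rw [← sg3_pres (hle hh), e0]
  rw [e1, hx, Matrix.mulVec_add, Matrix.mulVec_smul, e0, e3]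

lemma sg3_scal {v : Fin 4 → F} (hv : v ∈ sg3_C G₀) (a : F) : a • v ∈ sg3_C G₀ := by
  intro c
  obtain ⟨g, hg, hx⟩ := hv (c * a ^ 2)
  refine ⟨g, hg, fun x => ?_⟩
  rw [hx, sg3_frm, sg3_frm]
  ext i
  simp only [Pi.add_apply, Pi.smul_apply, smul_eq_mul]
  ring

lemma sg3_star (hle : G₀ ≤ Sp4 F) {v w : Fin 4 → F} (hv : v ∈ sg3_C G₀) (hw : w ∈ sg3_C G₀)
    (h : frm w v ≠ 0) (a : F) : w + a • v ∈ sg3_C G₀ := by
  obtain ⟨g, hg, hx⟩ := hv (a / frm w v)
  have h1 := sg3_conj hle hg hw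
  rw [hx, div_mul_cancel₀ a h] at h1
  exact h1

lemma sg3_four (hle : G₀ ≤ Sp4 F) (hS : ∀ g ∈ Sp4 F, Sieg g.1 → g ∈ G₀) {w y : Fin 4 → F}
    (hw : w ∈ sg3_C G₀) (h : w 2 ≠ 0 ∨ w 3 ≠ 0) (h2 : y 2 = w 2) (h3 : y 3 = w 3) :
    y ∈ sg3_C G₀ := by
  have key : ∃ s t r : F, w 2 * s + w 3 * t = y 0 - w 0 ∧ w 2 * r + w 3 * s = y 1 - w 1 := by
    by_cases h4 : w 3 = 0
    · have h5 : w 2 ≠ 0 := by
        rcases h with h | h
        · exact h
        · exact absurd h4 h
      refine ⟨(y 0 - w 0) / w 2, 0, (y 1 - w 1) / w 2, ?_, ?_⟩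
      · field_simp
        ring
      · rw [h4]
        field_simp
        ring
    · refine ⟨(y 1 - w 1) / w 3, (y 0 - w 0 - w 2 * ((y 1 - w 1) / w 3)) / w 3, 0, ?_, ?_⟩
      · field_simp
        ring
      · field_simp
        ring
  obtain ⟨s, t, r, e1, e2⟩ := key
  have h6 := sg3_conj hle (hS _ (sg3_mem s t r) (sg3_sieg s t r)) hw
  have h7 : (sg3_e s t r).1.mulVec w = y := by
    rw [sg3_act]
    ext i
    fin_cases i
    · simp only [Fin.zero_eta, Matrix.cons_val_zero]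
      rw [add_assoc, e1]
      ring
    · simp only [Fin.mk_one, Matrix.cons_val_one, Matrix.cons_val_zero]
      rw [add_assoc, e2]
      ring
    · exact h2.symm
    · exact h3.symm
  rw [h7] at h6
  exact h6

lemma sg3_all (hle : G₀ ≤ Sp4 F) (hI : Irr0 G₀) (hS : ∀ g ∈ Sp4 F, Sieg g.1 → g ∈ G₀)
    (x : Fin 4 → F) : x ∈ sg3_C G₀ := by
  -- an element outside `⟨e_0, e_1⟩`
  have step1 : ∃ w ∈ sg3_C G₀, w 2 ≠ 0 ∨ w 3 ≠ 0 := by
    by_contra hn
    push Not at hn
    let U : Submodule F (Fin 4 → F) :=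
      { carrier := {v | v 2 = 0 ∧ v 3 = 0}
        add_mem' := by
          rintro a b ⟨ha, ha'⟩ ⟨hb, hb'⟩
          exact ⟨by rw [Pi.add_apply, ha, hb, add_zero], by rw [Pi.add_apply, ha', hb', add_zero]⟩
        zero_mem' := ⟨rfl, rfl⟩
        smul_mem' := by
          rintro c a ⟨ha, ha'⟩
          exact ⟨by rw [Pi.smul_apply, ha, smul_zero], by rw [Pi.smul_apply, ha', smul_zero]⟩ }
    have hU : U = ⊤ := by
      apply hI U
      · intro g hg u hu
        exact hn _ (sg3_conj hle hg (sg3_lam hS hu.1 hu.2))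
      · exact ⟨by simp, by simp⟩
    have h3 : (Pi.single 3 1 : Fin 4 → F) ∈ U := by rw [hU]; trivial
    have h4 := h3.2
    simp at h4
  obtain ⟨w₁, hw₁, hw₁'⟩ := step1
  let u : Fin 4 → F := ![w₁ 2, -w₁ 3, 0, 0]
  have hfu : ∀ y, frm y u = y 2 * w₁ 3 - y 3 * w₁ 2 := by
    intro y
    rw [sg3_frm]
    simp only [u, Matrix.cons_val_zero, Matrix.cons_val_one, Matrix.cons_val]
    ring
  have huC : u ∈ sg3_C G₀ := sg3_lam hS (by simp [u]) (by simp [u])
  -- the orthogonal complement of `u`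
  have step2 : ∀ y, frm y u = 0 → y ∈ sg3_C G₀ := by
    intro y hy
    rw [hfu] at hy
    have hs : ∃ s : F, y 2 = s * w₁ 2 ∧ y 3 = s * w₁ 3 := by
      by_cases h2 : w₁ 2 = 0
      · have h3 : w₁ 3 ≠ 0 := by
          rcases hw₁' with h | h
          · exact absurd h2 h
          · exact h
        refine ⟨y 3 / w₁ 3, ?_, ?_⟩
        · rw [h2, mul_zero, sub_zero] at hy
          rw [h2, mul_zero]
          exact (mul_eq_zero.1 hy).resolve_right h3
        · field_simp
      · refine ⟨y 2 / w₁ 2, ?_, ?_⟩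
        · field_simp
        · field_simp
          linear_combination -hy
    obtain ⟨s, e2, e3⟩ := hs
    by_cases h0 : s = 0
    · rw [h0, zero_mul] at e2 e3
      exact sg3_lam hS e2 e3
    · refine sg3_four hle hS (sg3_scal hw₁ s) ?_ ?_ ?_
      · rcases hw₁' with h | h
        · exact Or.inl (mul_ne_zero h0 h)
        · exact Or.inr (mul_ne_zero h0 h)
      · exact e2
      · exact e3
  have step3 : ∃ w ∈ sg3_C G₀, frm w u ≠ 0 := by
    by_contra hn
    push Not at hn
    let U : Submodule F (Fin 4 → F) :=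
      { carrier := {v | frm v u = 0}
        add_mem' := by
          intro a b ha hb
          show frm (a + b) u = 0
          have ha' : frm a u = 0 := ha
          have hb' : frm b u = 0 := hb
          rw [hfu] at ha' hb' ⊢
          simp only [Pi.add_apply]
          linear_combination ha' + hb'
        zero_mem' := by
          show frm 0 u = 0
          rw [hfu]
          simp
        smul_mem' := by
          intro c a ha
          show frm (c • a) u = 0
          have ha' : frm a u = 0 := ha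
          rw [hfu] at ha' ⊢
          simp only [Pi.smul_apply, smul_eq_mul]
          linear_combination c * ha' }
    have hU : U = ⊤ := by
      apply hI U
      · intro g hg v hv
        exact hn _ (sg3_conj hle hg (step2 v hv))
      · show frm _ u = 0
        rw [hfu]
        simp
    have h2 : frm (Pi.single 2 1 : Fin 4 → F) u = 0 := by
      have : (Pi.single 2 1 : Fin 4 → F) ∈ U := by rw [hU]; trivial
      exact this
    have h3 : frm (Pi.single 3 1 : Fin 4 → F) u = 0 := by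
      have : (Pi.single 3 1 : Fin 4 → F) ∈ U := by rw [hU]; trivial
      exact this
    rw [hfu] at h2 h3
    simp at h2 h3
    rcases hw₁' with h | h
    · exact h h3
    · exact h h2
  obtain ⟨w, hw, hwu⟩ := step3
  by_cases hx : frm x u = 0
  · exact step2 x hx
  -- scale `w`
  let w' : Fin 4 → F := (frm x u / frm w u) • w
  have hw' : w' ∈ sg3_C G₀ := sg3_scal hw _
  have hw'u : frm w' u = frm x u := by
    have h1 : ∀ ρ : F, frm (ρ • w) u = ρ * frm w u := by
      intro ρ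
      rw [sg3_frm, sg3_frm w]
      simp only [Pi.smul_apply, smul_eq_mul]
      ring
    show frm ((frm x u / frm w u) • w) u = frm x u
    rw [h1, div_mul_cancel₀ _ hwu]
  have hlin : ∀ a b c : Fin 4 → F, frm a (b - c) = frm a b - frm a c := by
    intro a b c
    rw [sg3_frm, sg3_frm, sg3_frm]
    simp only [Pi.sub_apply]
    ring
  have hlin' : ∀ a b c : Fin 4 → F, frm (a - b) c = frm a c - frm b c := by
    intro a b c
    rw [sg3_frm, sg3_frm, sg3_frm]
    simp only [Pi.sub_apply]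
    ring
  have hadd' : ∀ a b c : Fin 4 → F, frm (a + b) c = frm a c + frm b c := by
    intro a b c
    rw [sg3_frm, sg3_frm, sg3_frm]
    simp only [Pi.add_apply]
    ring
  have hself : ∀ a : Fin 4 → F, frm a a = 0 := by
    intro a
    rw [sg3_frm]
    ring
  have hanti : ∀ a b : Fin 4 → F, frm a b = -frm b a := by
    intro a b
    rw [sg3_frm, sg3_frm]
    ring
  have hyu : frm (x - w') u = 0 := by rw [hlin', hw'u, sub_self]
  have hy : x - w' ∈ sg3_C G₀ := step2 _ hyu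
  by_cases h1 : frm w' (x - w') = 0
  · have h2 : w' + (1 : F) • u ∈ sg3_C G₀ := sg3_star hle huC hw' (by rw [hw'u]; exact hx) 1
    have h3 : x - w' - u ∈ sg3_C G₀ := step2 _ (by rw [hlin', hyu, hself, sub_zero])
    have h4 : frm (w' + (1 : F) • u) (x - w' - u) ≠ 0 := by
      rw [one_smul, hadd', hlin w', hlin u, h1, hself, hanti u (x - w'), hyu, hw'u]
      simpa using hx
    have h5 := sg3_star hle h3 h2 h4 1
    have h6 : w' + (1 : F) • u + (1 : F) • (x - w' - u) = x := by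
      rw [one_smul, one_smul]
      abel
    rw [h6] at h5
    exact h5
  · have h5 := sg3_star hle hy hw' h1 1
    have h6 : w' + (1 : F) • (x - w') = x := by
      rw [one_smul]
      abel
    rw [h6] at h5
    exact h5

end sg3

/-- Row SG3. -/
theorem sg3_thm (h1 : S_SG1) : S_SG3 := by
  intro F _ _ G₀ hle hI hS
  apply h1 F G₀ hle
  intro g v c hg
  obtain ⟨g', hg', hx⟩ := sg3_all hle hI hS v c
  have h2 : g = g' := by
    apply Subtype.ext
    apply Matrix.mulVec_injective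
    funext x
    rw [hg, hx]
  rw [h2]
  exact hg'

end Pool.CND
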